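import Pool.Agent.Helper25.FN.Spec

set_option autoImplicit false

namespace Pool.Agent.Helper42.FN.SYM2

open MeasureTheory
open scoped ContDiff Topology
open Pool.Agent.Helper25.FN

theorem nm_cont (n : ℕ) : Continuous (nm : V n → ℝ) := by
  unfold nm
  fun_prop

theorem nm_nonneg {n : ℕ} (z : V n) : 0 ≤ nm z := Real.sqrt_nonneg _

theorem nm_smul {n : ℕ} (z : V n) (t : ℝ) (ht : 0 ≤ t) : nm (t • z) = t * nm z := by
  unfold nm
  have : ∑ j, ‖(t • z) j‖ ^ 2 = t ^ 2 * ∑ j, ‖z j‖ ^ 2 := by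
    rw [Finset.mul_sum]
    refine Finset.sum_congr rfl fun j _ => ?_
    rw [Pi.smul_apply, norm_smul, Real.norm_eq_abs, mul_pow, sq_abs]
  rw [this, Real.sqrt_mul (sq_nonneg t), Real.sqrt_sq ht]

theorem norm_le_nm {n : ℕ} (z : V n) : ‖z‖ ≤ nm z := by
  refine (pi_norm_le_iff_of_nonneg (nm_nonneg z)).2 fun j => ?_
  unfold nm
  refine Real.le_sqrt_of_sq_le ?_
  exact Finset.single_le_sum (f := fun j => ‖z j‖ ^ 2) (fun i _ => sq_nonneg _) (Finset.mem_univ j)

theorem compact_nm (n : ℕ) (R : ℝ) : IsCompact {z : V n | nm z ≤ R} := by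
  refine (isCompact_closedBall (0 : V n) R).of_isClosed_subset
    (isClosed_le (nm_cont n) continuous_const) ?_
  intro z hz
  rw [mem_closedBall_zero_iff]
  exact (norm_le_nm z).trans hz

theorem main : S_SYM2 := by
  intro n Φ hΦ hhom
  set b : V n → ℂ := fun z => (Φ z : ℂ) with hb
  have hbs : ContDiff ℝ ∞ b := Complex.ofRealCLM.contDiff.comp hΦ
  refine ⟨hbs, fun i => ?_⟩
  have hcont : Continuous (iteratedFDeriv ℝ i b) :=
    hbs.continuous_iteratedFDeriv (by exact_mod_cast le_top)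
  obtain ⟨M0, hM0⟩ := (compact_nm n 2).exists_bound_of_continuousOn (f := iteratedFDeriv ℝ i b)
    hcont.continuousOn
  set M := max M0 0 with hM
  have hM' : ∀ z : V n, nm z ≤ 2 → ‖iteratedFDeriv ℝ i b z‖ ≤ M := fun z hz =>
    (hM0 z hz).trans (le_max_left _ _)
  have hMnn : 0 ≤ M := le_max_right _ _
  refine ⟨M * 3 ^ i, fun z => ?_⟩
  have hz0 := nm_nonneg z
  have h1z : (0 : ℝ) < 1 + nm z := by linarith
  by_cases hz : nm z ≤ 2
  · refine (hM' z hz).trans ?_
    rw [mul_assoc]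
    refine le_mul_of_one_le_right hMnn ?_
    rw [zpow_sub₀ h1z.ne', zpow_one, zpow_natCast]
    rw [← mul_div_assoc, le_div_iff₀ (pow_pos h1z i), one_mul]
    have h3 : (1 + nm z) ^ i ≤ 3 ^ i := pow_le_pow_left₀ h1z.le (by linarith) i
    nlinarith [pow_pos (show (0 : ℝ) < 3 by norm_num) i]
  · push Not at hz
    set t : ℝ := nm z / 2 with ht
    have ht1 : 1 ≤ t := by rw [ht]; linarith
    have ht0 : 0 < t := by linarith
    have heq : b =ᶠ[𝓝 z] fun y => t • b (t⁻¹ • y) := by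
      have hopen : {y : V n | t < nm y} ∈ 𝓝 z := by
        refine (isOpen_lt continuous_const (nm_cont n)).mem_nhds ?_
        show t < nm z
        rw [ht]
        linarith
      filter_upwards [hopen] with y hy
      have h1 : 1 ≤ nm (t⁻¹ • y) := by
        rw [nm_smul _ _ (inv_nonneg.2 ht0.le), inv_mul_eq_div, one_le_div ht0]
        exact le_of_lt hy
      have h2 := hhom (t⁻¹ • y) t h1 ht1
      rw [smul_smul, mul_inv_cancel₀ ht0.ne', one_smul] at h2
      show ((Φ y : ℝ) : ℂ) = t • ((Φ (t⁻¹ • y) : ℝ) : ℂ)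
      rw [h2]
      simp
    let L : V n →L[ℝ] V n := t⁻¹ • ContinuousLinearMap.id ℝ (V n)
    have hcomp : (fun y => t • b (t⁻¹ • y)) = fun y => t • (b ∘ L) y := by
      funext y
      rfl
    have hbL : ContDiff ℝ ∞ (b ∘ L) := hbs.comp L.contDiff
    have hLn : ‖L‖ ≤ t⁻¹ := by
      show ‖t⁻¹ • ContinuousLinearMap.id ℝ (V n)‖ ≤ t⁻¹
      rw [norm_smul, Real.norm_eq_abs, abs_of_pos (inv_pos.2 ht0)]
      exact mul_le_of_le_one_right (inv_nonneg.2 ht0.le) ContinuousLinearMap.norm_id_le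
    have h1 : iteratedFDeriv ℝ i b z = t • (iteratedFDeriv ℝ i b (L z)).compContinuousLinearMap
        fun _ => L := by
      rw [(heq.iteratedFDeriv ℝ i).eq_of_nhds, hcomp]
      rw [iteratedFDeriv_const_smul_apply' (hbL.contDiffAt.of_le (by exact_mod_cast le_top))]
      rw [L.iteratedFDeriv_comp_right hbs z (by exact_mod_cast le_top)]
    rw [h1]
    have hLz : nm (L z) ≤ 2 := by
      show nm (t⁻¹ • z) ≤ 2
      rw [nm_smul _ _ (inv_nonneg.2 ht0.le), inv_mul_eq_div, div_le_iff₀ ht0, ht]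
      linarith
    have h2 : ‖t • (iteratedFDeriv ℝ i b (L z)).compContinuousLinearMap fun _ => L‖ ≤
        t * (M * t⁻¹ ^ i) := by
      rw [norm_smul, Real.norm_eq_abs, abs_of_pos ht0]
      refine mul_le_mul_of_nonneg_left ?_ ht0.le
      refine (ContinuousMultilinearMap.norm_compContinuousLinearMap_le _ _).trans ?_
      rw [Finset.prod_const, Finset.card_univ, Fintype.card_fin]
      exact mul_le_mul (hM' _ hLz) (pow_le_pow_left₀ (norm_nonneg _) hLn i)
        (pow_nonneg (norm_nonneg _) i) hMnn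
    refine h2.trans ?_
    rw [zpow_sub₀ h1z.ne', zpow_one, zpow_natCast]
    have h3 : (1 + nm z) ≤ 3 * t := by rw [ht]; linarith
    have h4 : t ≤ 1 + nm z := by rw [ht]; linarith
    have h5 : (1 + nm z) ^ i ≤ 3 ^ i * t ^ i := by
      rw [← mul_pow]
      exact pow_le_pow_left₀ h1z.le h3 i
    have h6 : t⁻¹ ^ i ≤ 3 ^ i / (1 + nm z) ^ i := by
      rw [le_div_iff₀ (pow_pos h1z i), inv_pow, inv_mul_le_iff₀ (pow_pos ht0 i), mul_comm (t ^ i)]
      exact h5
    calc t * (M * t⁻¹ ^ i) = M * (t * t⁻¹ ^ i) := by ring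
      _ ≤ M * ((1 + nm z) * (3 ^ i / (1 + nm z) ^ i)) := by
          refine mul_le_mul_of_nonneg_left ?_ hMnn
          exact mul_le_mul h4 h6 (by positivity) h1z.le
      _ = M * 3 ^ i * ((1 + nm z) / (1 + nm z) ^ i) := by ring

end Pool.Agent.Helper42.FN.SYM2
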